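import Pool.Agent.H10.Ury2

namespace Pool.Agent.Results.MP_18f3df_al.Sphere
open Pool.Agent.H10.Ury

theorem result (U : Type) [MetricSpace U] (h : Urysohn ratDist1 U) : UncountableCof (Pol U) := cof h cap_one

end Pool.Agent.Results.MP_18f3df_al.Sphere
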